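import Pool.Agent.V11112.LV5

open Filter Topology

namespace Pool.Agent.Results.MP_89b5f7_an.AchievementReordering

/-- the Euclidean plane -/
abbrev Plane := EuclideanSpace ℝ (Fin 2)

/-- conditional convergence: the series converges, the series of norms diverges -/
def CondConv (x : ℕ → Plane) : Prop :=
  (∃ l, Tendsto (fun N => ∑ n ∈ Finset.range N, x n) atTop (𝓝 l)) ∧ ¬ Summable (fun n => ‖x n‖)

/-- sum range: the set of sums of all convergent rearrangements -/
def sumRange (x : ℕ → Plane) : Set Plane :=
  {v | ∃ σ : Equiv.Perm ℕ, Tendsto (fun N => ∑ n ∈ Finset.range N, x (σ n)) atTop (𝓝 v)}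

/-- achievement set: sums of convergent subseries, terms taken in the given order
(the set `B` is the set of indices with coefficient `1`) -/
def achSet (x : ℕ → Plane) : Set Plane :=
  {v | ∃ B : Set ℕ, Tendsto (fun N => ∑ n ∈ Finset.range N, B.indicator x n) atTop (𝓝 v)}

/-- Levy vectors: unit vectors `u` such that the norms of the terms in each cone around `u` have
infinite sum -/
def levyVectors (x : ℕ → Plane) : Set Plane :=
  {u | ‖u‖ = 1 ∧ ∀ ε : ℝ, 0 < ε → ¬ Summable
    ({n | (1 - ε) * ‖u‖ * ‖x n‖ ≤ inner ℝ u (x n)}.indicator (fun n => ‖x n‖))}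

open Pool.Agent.V11112.LV in
/-- There is a conditionally convergent series in the plane with exactly two Levy vectors, whose
sum range and achievement set are the whole plane, and a permutation after which the achievement
set is no longer the whole plane. -/
theorem result : ∃ x : ℕ → Plane, CondConv x ∧ sumRange x = Set.univ ∧ achSet x = Set.univ ∧
    (levyVectors x).ncard = 2 ∧ ∃ σ : Equiv.Perm ℕ, achSet (fun n => x (σ n)) ≠ Set.univ := by
  have ha : ∀ q, 0 ≤ al q := fun q => (al_pos q).le
  have hg : ∀ q, 0 ≤ gm q := fun q => (gm_pos q).le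
  have hc := ctrl_qv ha hg al_tendsto gm_tendsto al_not_summable gm_not_summable
  refine ⟨qv al gm, ⟨⟨0, qv_converges ha hg al_tendsto gm_tendsto⟩,
    qv_not_summable ha al_not_summable⟩, ?_, ?_, ?_, bad, ?_⟩
  · rw [Set.eq_univ_iff_forall]
    intro v
    exact sr_of_ctrl (qv_tendsto ha hg al_tendsto gm_tendsto) hc v
  · rw [Set.eq_univ_iff_forall]
    intro v
    exact ach_of_ctrl hc v
  · exact levy_card al_pos hg al_not_summable ratio
  · intro h
    have h1 := Set.eq_univ_iff_forall.1 h !₂[0, Pool.Agent.V11112.SG.y0 / 2]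
    obtain ⟨B, hB⟩ := h1
    exact bad_ne hB

end Pool.Agent.Results.MP_89b5f7_an.AchievementReordering
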